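import Mathlib
import Pool.Agent.X146.RD.Link

/-!
A Banach space with the reciprocal Dunford-Pettis property but without the quantitative
reciprocal Dunford-Pettis property.
-/

namespace Pool.Agent.Results.MP_2f19c2_an.NotQuantitative

open Pool.Agent.X146.RDP
open scoped ENNReal NNReal

universe v

/-- For real and for complex scalars there is a Banach space `X` with the reciprocal
Dunford-Pettis property (every completely continuous operator from `X` to a Banach space is weakly
compact) such that for every finite `C` there are a Banach space `Y` and an operator `T : X → Y`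
with `wk_Y(T) > C cc(T)`. -/
theorem result (𝕜 : Type) [RCLike 𝕜] :
    ∃ (X : Type) (_ : NormedAddCommGroup X) (_ : NormedSpace 𝕜 X),
      CompleteSpace X ∧ RDPP.{0, v} 𝕜 X ∧
      ∀ C : ℝ≥0, ∃ (Y : Type) (_ : NormedAddCommGroup Y) (_ : NormedSpace 𝕜 Y)
        (T : X →L[𝕜] Y), CompleteSpace Y ∧ (C : ℝ≥0∞) * ccOp T < wkOp T :=
  main

end Pool.Agent.Results.MP_2f19c2_an.NotQuantitative
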